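import Pool.Agent.H376R3.PC.Final

/-!
# Stronger compactness-type group topologies on pseudocompact abelian groups

Every abelian group with a pseudocompact (Hausdorff) group topology has a (Hausdorff) group
topology with the properties (i)-(iv) of the problem, and even such that every sequence of nonempty
open sets has a selection that lies in a continuous image of the Cantor set.

The proof uses pieces formalised by helper990 (the completion), helper973 (Cantor families,
cardinalities of multiples), helper345 (families of functions on compact groups), helper206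
(heights) and helper526 (large independent families).
-/

set_option autoImplicit false

universe u

namespace Pool.Agent.Results.MP_f23337_gt.AllFourProperties

open Topology Filter Pool.Agent.H376R3.PC

/-- Every continuous real-valued function is bounded. -/
def Pseudocompact (X : Type*) [TopologicalSpace X] : Prop :=
  ∀ f : X → ℝ, Continuous f → ∃ C : ℝ, ∀ x, |f x| ≤ C

/-- The ultrafilter `p` is free. -/
def Free (p : Ultrafilter ℕ) : Prop := ∀ s : Set ℕ, s.Finite → s ∉ p

/-- `x` is a `p`-limit of the sequence `u`. -/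
def IsPLim {X : Type*} [TopologicalSpace X] (p : Ultrafilter ℕ) (u : ℕ → X) (x : X) : Prop :=
  ∀ W ∈ 𝓝 x, {n | u n ∈ W} ∈ p

/-- A sequence of nonempty open sets. -/
def OpenSeq {X : Type*} [TopologicalSpace X] (U : ℕ → Set X) : Prop :=
  ∀ n, IsOpen (U n) ∧ (U n).Nonempty

/-- (i) `X` is selectively pseudocompact. -/
def SelectivelyPseudocompact (X : Type*) [TopologicalSpace X] : Prop :=
  ∀ U : ℕ → Set X, OpenSeq U →
    ∃ u : ℕ → X, (∀ n, u n ∈ U n) ∧ ∃ p, Free p ∧ ∃ x, IsPLim p u x

/-- `X` is strongly `p`-pseudocompact. -/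
def StronglyPseudocompact (X : Type*) [TopologicalSpace X] (p : Ultrafilter ℕ) : Prop :=
  ∀ U : ℕ → Set X, OpenSeq U → ∃ u : ℕ → X, (∀ n, u n ∈ U n) ∧ ∃ x, IsPLim p u x

/-- `X` is strongly `P`-bounded for the set `P` of all free ultrafilters. -/
def StronglyBounded (X : Type*) [TopologicalSpace X] : Prop :=
  ∀ U : ℕ → Set X, OpenSeq U →
    ∃ u : ℕ → X, (∀ n, u n ∈ U n) ∧ ∀ p, Free p → ∃ x, IsPLim p u x

/-- Every sequence of nonempty open sets has a selection inside of a continuous image of the
Cantor set. -/
def CantorSelections (X : Type*) [TopologicalSpace X] : Prop :=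
  ∀ U : ℕ → Set X, OpenSeq U →
    ∃ f : (ℕ → Bool) → X, Continuous f ∧ ∀ n, ∃ z, f z ∈ U n

theorem StronglyBounded.of_cantor {X : Type*} [TopologicalSpace X] (h : CantorSelections X) :
    StronglyBounded X := by
  intro U hU
  obtain ⟨f, hf, hz⟩ := h U hU
  choose z hz using hz
  refine ⟨fun n => f (z n), hz, ?_⟩
  intro p _
  obtain ⟨y, -, hy⟩ := isCompact_univ.ultrafilter_le_nhds (p.map z) (by simp)
  refine ⟨f y, fun W hW => ?_⟩
  have h1 : f ⁻¹' W ∈ 𝓝 y := hf.continuousAt hW
  exact hy h1

/-- Let `G` be an abelian group with a pseudocompact Hausdorff group topology. Then `G` has a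
Hausdorff group topology that has the properties (i), (ii), (iii), (iv), and for which every
sequence of nonempty open sets has a selection inside of a continuous image of the Cantor set. -/
theorem result (G : Type u) [AddCommGroup G] (τ : TopologicalSpace G)
    (h1 : @IsTopologicalAddGroup G τ _) (h2 : @T2Space G τ) (h3 : @Pseudocompact G τ) :
    ∃ τ' : TopologicalSpace G, @IsTopologicalAddGroup G τ' _ ∧ @T2Space G τ' ∧
      @SelectivelyPseudocompact G τ' ∧
      (∃ p, Free p ∧ @StronglyPseudocompact G τ' p) ∧
      (∀ p, Free p → @StronglyPseudocompact G τ' p) ∧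
      @StronglyBounded G τ' ∧ @CantorSelections G τ' := by
  obtain ⟨τ', ht1, ht2, ht3⟩ := @main_theorem G _ τ h1 h2 h3
  have hC : @CantorSelections G τ' := by
    intro U hU
    exact ht3 U (fun n => (hU n).1) (fun n => (hU n).2)
  have hB : @StronglyBounded G τ' := @StronglyBounded.of_cantor G τ' hC
  have hfree : Free (hyperfilter ℕ) := by
    intro s hs hmem
    exact (notMem_hyperfilter_of_finite hs) hmem
  have hS : ∀ p, Free p → @StronglyPseudocompact G τ' p := by
    intro p hp U hU
    obtain ⟨u, hu, hx⟩ := hB U hU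
    exact ⟨u, hu, hx p hp⟩
  refine ⟨τ', ht1, ht2, ?_, ⟨hyperfilter ℕ, hfree, hS _ hfree⟩, hS, hB, hC⟩
  intro U hU
  obtain ⟨u, hu, hx⟩ := hB U hU
  exact ⟨u, hu, hyperfilter ℕ, hfree, hx _ hfree⟩

end Pool.Agent.Results.MP_f23337_gt.AllFourProperties
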